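import Mathlib
import Pool.Agent.Y742.CN.Stm

/-!
# The space of derivations is everything
-/

set_option autoImplicit false

namespace Pool.Agent.Y929.CN

open Pool.Agent.Y742.CN

/-- the values of a derivation at given elements -/
def ev {Ω K : Type} [Field Ω] [Field K] [Algebra Ω K] {n : ℕ} (x : Fin n → K) :
    Derivation Ω K K →ₗ[K] (Fin n → K) where
  toFun B := fun j => B (x j)
  map_add' _ _ := rfl
  map_smul' _ _ := rfl

theorem sFinal (h3 : SCoord) (h3b : SExtend) (h7 : SMax) (h8 : SIndep) : SFinal := by
  intro Ω K I _ _ _ _ n x hx g hg D hD hAL hinv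
  classical
  obtain ⟨M, _, _, s, e, hT, hSt⟩ := h7 Ω K n x hx g hg
  have hind : AlgebraicIndependent s.fieldRange (fun l => e (x l)) :=
    h8 Ω K I M s e D hinv (fun i => hSt _ (hD i) (hAL i)) n x hx.1
  obtain ⟨dc, -, hform⟩ := h3 Ω K (Fin n) x hx
  have hch : CharZero s.fieldRange :=
    charZero_of_injective_algebraMap (algebraMap Ω s.fieldRange).injective
  -- all forms which vanish on `g` vanish on every derivation
  have hall : ∀ B0 : Derivation Ω K K, ∀ (q : ℕ) (f h : Fin q → K), Null g f h →
      ∑ l, f l * B0 (h l) = 0 := by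
    intro B0 q f h hN
    obtain ⟨d, hd⟩ := h3b s.fieldRange M n (fun l => e (x l)) hind (fun l => e (B0 (x l)))
    let dΩ : Derivation Ω M M := d.restrictScalars Ω
    have hdΩ : ∀ a, dΩ a = d a := fun _ => rfl
    have hA1 : DerAlong Ω (e : K →+* M) (fun a => d (e a)) := by
      refine ⟨fun a b => ?_, fun a b => ?_, fun c => ?_⟩
      · rw [map_add, map_add]
      · rw [map_mul, d.leibniz, smul_eq_mul, smul_eq_mul]
        rfl
      · rw [e.commutes, ← hdΩ]
        exact dΩ.map_algebraMap c
    have hA2 : DerAlong Ω (e : K →+* M) (fun a => e (B0 a)) := by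
      refine ⟨fun a b => ?_, fun a b => ?_, fun c => ?_⟩
      · rw [map_add, map_add]
      · rw [B0.leibniz, smul_eq_mul, smul_eq_mul, map_add, map_mul, map_mul]
        rfl
      · rw [B0.map_algebraMap, map_zero]
    have hval : ∀ a, d (e a) = e (B0 a) := by
      intro a
      have e1 := hform M (e : K →+* M) _ hA1 a
      have e2 := hform M (e : K →+* M) _ hA2 a
      rw [e1, e2]
      refine Finset.sum_congr rfl fun j _ => ?_
      rw [hd j]
    have h1 := hT q f h hN dΩ (fun a => by
      have h2 := d.map_algebraMap (⟨s a, ⟨a, rfl⟩⟩ : s.fieldRange)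
      exact h2)
    have h2 : e (∑ l, f l * B0 (h l)) = 0 := by
      rw [map_sum, ← h1]
      refine Finset.sum_congr rfl fun l _ => ?_
      rw [map_mul, hdΩ, hval]
    exact (map_eq_zero e).1 h2
  by_contra hne
  obtain ⟨B0, hB0⟩ : ∃ B0, B0 ∉ g := by
    by_contra hcon
    push Not at hcon
    exact hne (eq_top_iff.2 fun B _ => hcon B)
  have hnot : ev x B0 ∉ g.map (ev x) := by
    rintro ⟨B, hB, hBB⟩
    apply hB0
    have hEq : B = B0 := by
      have key : ∀ C : Derivation Ω K K, ∀ a, C a = ∑ j, dc j a * C (x j) := by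
        intro C a
        exact hform K (RingHom.id K) (fun a => C a) ⟨fun a b => map_add C a b,
          fun a b => by
            simp only [RingHom.id_apply]
            rw [C.leibniz, smul_eq_mul, smul_eq_mul],
          fun c => C.map_algebraMap c⟩ a
      ext a
      rw [key B a, key B0 a]
      refine Finset.sum_congr rfl fun j _ => ?_
      have := congrFun hBB j
      simp only [ev, LinearMap.coe_mk, AddHom.coe_mk] at this
      rw [this]
    rw [← hEq]
    exact hB
  obtain ⟨φ, hφ1, hφ2⟩ := Submodule.exists_le_ker_of_notMem hnot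
  have hφ : ∀ v : Fin n → K, φ v = ∑ j, φ (Pi.single j 1) * v j := by
    intro v
    rw [LinearMap.pi_apply_eq_sum_univ φ v]
    refine Finset.sum_congr rfl fun j _ => ?_
    rw [smul_eq_mul, mul_comm]
    congr 2
    funext i
    rw [Pi.single_apply]
    simp only [eq_comm]
  have hN : Null g (fun j => φ (Pi.single j 1)) x := by
    intro B hB
    have h1 : φ (ev x B) = 0 := hφ2 (Submodule.mem_map_of_mem hB)
    rw [hφ] at h1
    exact h1
  apply hφ1
  rw [hφ]
  exact hall B0 n _ x hN

end Pool.Agent.Y929.CN
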